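import Mathlib

set_option autoImplicit false

namespace Pool.Agent.Results.MP_2bef4d_nt.Infinite

/-- the abcd equation is solvable for `n` -/
def Abcd (n : ℕ) : Prop :=
  ∃ a b c d : ℕ, 0 < a ∧ 0 < b ∧ 0 < c ∧ 0 < d ∧ (n : ℚ) = ((a : ℚ) / b + b / a) * ((c : ℚ) / d + d / c)

/-- the integer form is solvable for `n` -/
def IntForm (n : ℕ) : Prop := ∃ a b : ℕ, 0 < a ∧ 0 < b ∧ (n : ℚ) = ((a : ℚ) + (a : ℚ)⁻¹) * ((b : ℚ) + (b : ℚ)⁻¹)

lemma vieta (k : ℤ) : ∀ (s : ℕ) (a b : ℤ), 0 < a → 0 < b → a + b ≤ s → a ^ 2 + b ^ 2 + 1 = k * a * b → k = 3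
  | 0, _, _, _, _, h, _ => by omega
  | s + 1, a, b, ha, hb, h, e => by
    have key : ∀ a b : ℤ, 0 < a → a < b → a + b ≤ s + 1 → a ^ 2 + b ^ 2 + 1 = k * a * b → k = 3 :=
      fun a b ha hb h e => by
        have h1 : 0 < k * a - b := by
          by_contra! h1; nlinarith
        have h2 : k * a - b < b := by
          by_contra! h2; nlinarith
        exact vieta k s a (k * a - b) ha h1 (by omega) (by linear_combination e)
    rcases lt_trichotomy a b with h1 | rfl | h1
    · exact key a b ha h1 h e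
    · have := Int.eq_one_of_mul_eq_one_left (a := a ^ 2) (b := k - 2) (by nlinarith) (by linear_combination -e)
      omega
    · exact key b a hb h1 (by omega) (by linear_combination e)

def f (x : ZMod 11 × ZMod 11) : ZMod 11 × ZMod 11 := (x.2, (x.2 ^ 4 + 1) * x.1 ^ 9)

lemma fam (k : ℕ) : ∃ c d m : ℤ, k < c ∧ c < d ∧ m * c * d = c ^ 4 + d ^ 4 + 1 ∧ (c : ZMod 11) ≠ 0 ∧
    (d : ZMod 11) ≠ 0 ∧ ((c : ZMod 11), (d : ZMod 11)) = f^[k] (2, 6) := by
  induction k with
  | zero => exact ⟨2, 17, 2457, by decide⟩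
  | succ k ih =>
    obtain ⟨c, d, m, h1, h2, h3, h4, h5, h6⟩ := ih
    have e : c * (m * d - c ^ 3) = d ^ 4 + 1 := by linear_combination h3
    have e' : ((m * d - c ^ 3 : ℤ) : ZMod 11) = (d ^ 4 + 1) * c ^ 9 := by
      have : (c : ZMod 11) * ((m * d - c ^ 3 : ℤ) : ZMod 11) = d ^ 4 + 1 := by exact_mod_cast congrArg Int.cast e
      rw [← this]
      exact (by decide : ∀ x y : ZMod 11, x ≠ 0 → y = x * y * x ^ 9) _ _ h4
    refine ⟨d, m * d - c ^ 3, m ^ 3 * d ^ 2 - 3 * m ^ 2 * d * c ^ 3 + 3 * m * c ^ 6 + c * (1 - c ^ 4) * (m * c - d ^ 3),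
      by push_cast; omega, ?_, ?_, h5, ?_, ?_⟩
    · by_contra! h
      have : 0 < c := by omega
      have : c * (m * d - c ^ 3) ≤ d * d := by nlinarith
      have : d * d ≤ (d * d) * (d * d) := le_mul_of_one_le_left (mul_self_nonneg d) (by nlinarith)
      nlinarith
    · linear_combination (1 + (m * d - c ^ 3) * c * (1 - c ^ 4)) * h3
    · rw [e']; exact (by decide : ∀ x y : ZMod 11, x ≠ 0 → (y ^ 4 + 1) * x ^ 9 ≠ 0) _ _ h4
    · rw [Function.iterate_succ_apply', ← h6, e']; rfl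

theorem result : {n : ℕ | 0 < n ∧ Abcd n ∧ ¬ IntForm n}.Infinite := by
  refine Set.infinite_of_forall_exists_gt fun N => ?_
  obtain ⟨c, d, m, h1, h2, h3, -, -, h6⟩ := fam (12 * N)
  rw [show f^[12 * N] (2, 6) = (2, 6) from Function.IsPeriodicPt.mul_const (show f^[12] (2, 6) = (2, 6) by decide +kernel) N, Prod.mk.injEq] at h6
  have hc : 0 < c := by omega
  have hm : 0 < m := by
    by_contra! h
    have : m * (c * d) ≤ 0 := mul_nonpos_of_nonpos_of_nonneg h (by nlinarith)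
    nlinarith [pow_pos hc 4, pow_pos (hc.trans h2) 4]
  have hN : (N : ℤ) < m + 2 * c * d := by push_cast at h1; nlinarith
  lift c to ℕ using hc.le
  lift d to ℕ using (hc.trans h2).le
  lift m to ℕ using hm.le
  have h7 : (m : ZMod 11) = 4 := by
    have : (m : ZMod 11) * c * d = c ^ 4 + d ^ 4 + 1 := by exact_mod_cast congrArg (Int.cast : ℤ → ZMod 11) h3
    simp only [Int.cast_natCast] at h6
    rw [h6.1, h6.2] at this
    revert this; generalize (m : ZMod 11) = x; revert x; decide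
  have hd : 0 < d := by omega
  have hc : 0 < c := by omega
  refine ⟨m + 2 * c * d, ⟨by positivity, ⟨c ^ 2 + d ^ 2, 1, c, d, by positivity, one_pos, hc, hd, ?_⟩, ?_⟩, by exact_mod_cast hN⟩
  · have : (m : ℚ) * c * d = c ^ 4 + d ^ 4 + 1 := by exact_mod_cast h3
    push_cast; field_simp; linear_combination this
  · rintro ⟨a, b, ha, hb, e⟩
    have e1 : (a : ℤ) ^ 2 + b ^ 2 + 1 = (m + 2 * c * d - a * b) * a * b := by
      have : (a : ℚ) ^ 2 + b ^ 2 + 1 = (m + 2 * c * d - a * b) * a * b := by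
        push_cast at e; rw [e]; field_simp; ring
      exact_mod_cast this
    have e2 := vieta _ (a + b) a b (by omega) (by omega) (by omega) e1
    have e3 : (m : ℤ) + 2 * c * d - 4 = (a - b) ^ 2 := by rw [e2] at e1; linear_combination e2 - e1
    have e4 := congrArg (Int.cast : ℤ → ZMod 11) e3
    simp only [Int.cast_natCast] at h6
    push_cast at e4
    rw [h6.1, h6.2, h7] at e4
    revert e4; generalize (a - b : ZMod 11) = x; revert x; decide

end Pool.Agent.Results.MP_2bef4d_nt.Infinite
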